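import Pool.Agent.V1151.TM.Main

/-!
# The Tate conjecture for singular varieties covered by products with powers of varieties with one
element of local monodromy, of several kinds

Let `W` be a Weil cohomology theory with algebraically closed coefficients (étale cohomology with
coefficients in the closure of `ℚ_ℓ`) on a class of smooth proper varieties over the algebraic
closure of a finitely generated field `k`, with an action of a group `Γ` (the Galois group of `k`) on
the cohomology of the varieties under consideration.

Let `X_i` be varieties of odd dimension for which numerical and homological equivalence coincide,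
whose transcendental cohomology `T_i` (the orthogonal complement of all algebraic classes) is
concentrated in the middle degree and irreducible under all subgroups of finite index of `Γ`. For
every `i` let there be ONE element `g_i` of `Γ`, acting trivially on the Tate twists (an element of an
inertia group), of one of the following kinds, where different `i` may be of different kinds:

* (*multiplicative*) `g_i` acts trivially on the cohomology of `Z` and of the other `X_j`, and
  `(g_i - 1) ^ 2 = 0` on `T_i`, where the rank of `g_i - 1` is ARBITRARY, but the rank and the
  multiplicities of the nonzero eigenvalues of the operators `(g_i - 1) (g' - 1)` on `T_i`, for the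
  elements `g'` with the same properties (for instance the conjugates of `g_i`), have no common
  prime factor, or one of them is two. Example: `X_i` has any number of ordinary double points at a
  place `v_i`, where `Z` and the other `X_j` have good reduction;
* (*additive, isolated*) `g_i` acts on `T_i` with finite order and its eigenvalues on `T_i` are isolated
  with respect to a group of numbers which contains all eigenvalues of `g_i` on the cohomology of
  `Z` and of the other `X_j`. Example: the model of `X_i` at `v_i` is smooth except for one
  singularity `x_0 ^ 2 + ⋯ + x_{n-1} ^ 2 + x_n ^ (2m+1) = t`, `2 m < dim T_i`, in residue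
  characteristic prime to `2 (2m + 1)`, and `Z` and the other `X_j` have at `v_i` semistable
  reduction, or acquire it over an extension of degree prime to `2m + 1`.

In the case of finite order let some element of `Γ` (a Frobenius element) have two eigenvalues on
`T_i` whose quotient is not a root of unity; this is automatic for Galois representations.

Let `Y` be a product of `Z` with arbitrary powers of the `X_i`. Then

* the maps `c_j` are surjective for `Y`, over all finite extensions of `k` and for all `j`, if and
  only if they are for `Z`;
* if they are for `Z`, the maps `c_j` are surjective, over all finite extensions of `k` and for all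
  `j`, for ALL varieties `V`, singular and not complete, of which `Y` is a good proper cover in the
  sense of Jannsen (for instance the images of `Y` and of its open subvarieties under proper maps, in
  characteristic zero): the part of weight zero of the homology of `V` in degree `2 j` and twist `j`
  is a direct factor of the homology of `Y`.
-/

universe u

namespace Pool.Agent.Results.MP_40dc3c_ag.LocalMonodromyProducts

open Pool.Agent.H914 Pool.Agent.H914.VarClass Pool.Agent.H914.VarClass.Obj
  Pool.Agent.H914.WeilCohomology Pool.Agent.H281R3.HT Pool.Agent.TH125.Gal Pool.Agent.V1151.TM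

/-- The homology of a variety `V` over `k`, singular or not complete: the vector spaces
`M j = H_{2j}(V, K(j))`, with the action of the Galois group and the set `cl j` of the (images of the)
fundamental classes of the closed subvarieties of dimension `j` over the algebraic closure. -/
structure Homology (K : Type) [Field K] (Γ : Type) [Group Γ] where
  /-- the vector spaces -/
  M : ℕ → Type
  [grp : ∀ j, AddCommGroup (M j)]
  [mod : ∀ j, Module K (M j)]
  /-- the action -/
  [act : ∀ j, MulAction Γ (M j)]
  /-- the cycle classes -/
  cl : ∀ j, Set (M j)

attribute [instance] Homology.grp Homology.mod Homology.act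

/-- `x` is fixed by a subgroup of finite index. -/
def Homology.Invariant {K : Type} [Field K] {Γ : Type} [Group Γ] (V : Homology K Γ) (j : ℕ)
    (x : V.M j) : Prop :=
  ∃ Δ : Subgroup Γ, Δ.FiniteIndex ∧ ∀ g ∈ Δ, g • x = x

/-- The maps `c_j` are surjective over all finite extensions of `k`: for all `j`, the classes in
`H_{2j}(V, K(j))` which are fixed by a subgroup of finite index are linear combinations of cycle
classes. -/
def Homology.AllSurjective {K : Type} [Field K] {Γ : Type} [Group Γ] (V : Homology K Γ) : Prop :=
  ∀ j, ∀ x : V.M j, V.Invariant j x → x ∈ Submodule.span K (V.cl j)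

/-- The part of weight zero of `M` is a direct factor of `A`, compatibly with the actions of `Γ` and
with the cycle classes: there are a linear map `θ` from `A` to `M`, which maps the set `C` to linear
combinations of elements of `D`, a subspace `W0` of `M` (the part of weight zero), which contains the
set `I`, and a section `s` of `θ` on `W0` with values in `gr` and `ρ g (s x) = χ g ^ i • s (g • x)`. -/
def DirectFactor {K A M Γ : Type} [Field K] [AddCommGroup A] [Module K A] [AddCommGroup M]
    [Module K M] [SMul Γ M] (gr : Submodule K A) (C : Set A) (D I : Set M) (χ : Γ → K) (i : ℕ)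
    (ρ : Γ → A → A) : Prop :=
  ∃ (θ : A →ₗ[K] M) (W0 : Submodule K M) (s : M →ₗ[K] A),
    (∀ c ∈ C, θ c ∈ Submodule.span K D) ∧ (∀ x ∈ I, x ∈ W0) ∧
    ∀ x ∈ W0, s x ∈ gr ∧ θ (s x) = x ∧ ∀ g, ρ g (s x) = χ g ^ i • s (g • x)

/-- The homology of `V` in degree `2 j` is zero for `j > n`, and for `i + j = n` the part of weight
zero of `H_{2j}(V, K(j))`, which contains the classes fixed by subgroups of finite index, is a direct
factor of the subspace `gr (2 i)` of `A`, compatibly with the classes `C i` and the actions. -/
def Homology.Covered {K Γ A : Type} [Field K] [Group Γ] [Ring A] [Algebra K A] (V : Homology K Γ)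
    (n : ℕ) (gr : ℕ → Submodule K A) (C : ℕ → Set A) (χ : Γ →* Kˣ) (ρ : Γ →* (A ≃ₐ[K] A)) :
    Prop :=
  (∀ j, n < j → ∀ x : V.M j, x = 0) ∧
  ∀ i j, i + j = n → DirectFactor (gr (2 * i)) (C i) (V.cl j)
    {x | V.Invariant j x} (fun g => (χ g : K)) i fun g => ρ g

/-- Jannsen's descent for good proper covers. -/
theorem Homology.Covered.surjective {K Γ A : Type} [Field K] [Group Γ] [Ring A] [Algebra K A]
    {V : Homology K Γ} {n : ℕ} {gr : ℕ → Submodule K A} {C : ℕ → Set A} {χ : Γ →* Kˣ}
    {ρ : Γ →* (A ≃ₐ[K] A)} (h : V.Covered n gr C χ ρ) (hY : TateAct χ gr C ρ) :
    V.AllSurjective := by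
  intro j x hx
  rcases lt_or_ge n j with hj | hj
  · rw [h.1 j hj x]
    exact Submodule.zero_mem _
  · obtain ⟨i, hi⟩ := Nat.exists_eq_add_of_le hj
    obtain ⟨θ, W0, s, h1, h2, h3⟩ := h.2 i j (by omega)
    obtain ⟨h4, h5, h6⟩ := h3 x (h2 x hx)
    obtain ⟨Δ, hΔ, hfix⟩ := hx
    have h7 : s x ∈ Submodule.span K (C i) := by
      refine hY i (s x) h4 ⟨Δ, hΔ, fun g hg => ?_⟩
      refine (h6 g).trans ?_
      show (χ g : K) ^ i • s (g • x) = _
      rw [hfix g hg]
    have h8 : (Submodule.span K (C i)).map θ ≤ Submodule.span K (V.cl j) := by
      rw [Submodule.map_span, Submodule.span_le]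
      rintro _ ⟨c, hc, rfl⟩
      exact h1 c hc
    rw [← h5]
    exact h8 (Submodule.mem_map_of_mem h7)

variable {k : Type u} [Field k] {𝒱 : VarClass k} {ops : CycleOps 𝒱}
  {W : WeilCohomology.{u, 0} ops} {Γ : Type} [Group Γ]

/-- `Y` is a good proper cover of `V` (Jannsen): the homology of `V` in degree `2 j` is zero for
`j > dim Y`, and for `i + j = dim Y` the part of weight zero of `H_{2j}(V, K(j))`, which contains the
classes fixed by subgroups of finite index, is a direct factor of `H^(2i)(Y, K(i))` (by the
restriction to an open subvariety, followed by the push-forward under a proper surjective map),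
compatibly with the classes of cycles of codimension `i` on `Y` and of dimension `j` on `V`. -/
def GoodCover (χ : Γ →* W.Kˣ) (Y : GVar W Γ) (V : Homology W.K Γ) : Prop :=
  V.Covered Y.X.dim (W.gr Y.X) (algClasses W Y.X) χ Y.act

/-- **The Tate conjecture for products with powers of varieties with one element of local monodromy
of several kinds, and for the singular varieties covered by them.** -/
theorem result {k : Type u} [Field k] {𝒱 : VarClass k} {ops : CycleOps 𝒱}
    (W : WeilCohomology.{u, 0} ops) [IsAlgClosed W.K] {Γ : Type} [Group Γ] (χ : Γ →* W.Kˣ)
    {ι : Type} (X : ι → GVar W Γ) (Z : GVar W Γ) (h : LocalFamily χ X Z) (S : Set ι)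
    (Y : GVar W Γ) (hY : GTower X Z S Y) : (TateConjecture χ Y ↔ TateConjecture χ Z) ∧
      (TateConjecture χ Z → ∀ V : Homology W.K Γ, GoodCover χ Y V → V.AllSurjective) :=
  ⟨tate_local h hY, fun hZ _ hV => Homology.Covered.surjective hV ((tate_local h hY).2 hZ)⟩

end Pool.Agent.Results.MP_40dc3c_ag.LocalMonodromyProducts
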