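import Pool.Agent.V11219.DeeMain

/-!
# The Tate conjecture for singular varieties with good proper covers by products

Let `W` be a Weil cohomology theory with algebraically closed coefficients (`ℓ`-adic cohomology with
coefficients in the algebraic closure of `ℚ_ℓ`) on a class of smooth proper varieties over a separable
closure, and let `Γ` be a group which acts on the cohomology of the varieties `X_i` and `Z` with the
formal properties of the Galois group `G_k` of a finitely generated field `k` of any characteristic
(`χ` is the action on the Tate twists). Let `C` be a system of classes (`ClassSystem`): for every variety `A`
a space `C(A)` of cohomology classes containing the classes of algebraic cycles and stable under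
products, pull-backs and push-forwards; for the Tate conjecture `C(A)` is the space spanned by the
classes of algebraic cycles. `TateIn χ C A` is the statement that all classes of `A` on which a subgroup of
finite index of `Γ` acts by a power of `χ` are in `C(A)`.

Let `X` be a singular variety with a good proper cover `X' ⊆ T`, so that `W_0 H_{2j}(X, ℚ_ℓ(j))` is a direct
factor, by the map `f = π_* α^*`, of the cohomology `H^{2(d-j)}(T)(d-j)` of the smooth proper variety `T`. Then
`FactorsTate χ C T`, that is: for **all** representations `M` of `Γ` with an equivariant map `s` to the
cohomology of `T` of even degree and a map `f` with `f ∘ s = 1`, every element of `M` which is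
invariant under a subgroup of finite index is in `f(C(T))`, says for `M = W_0 H_{2j}(X, ℚ_ℓ(j))` that the
invariant classes in `H_{2j}(X, ℚ_ℓ(j))` (which are in `W_0`) come from algebraic cycles on `T`, hence
from algebraic cycles on `X`, as in the reduction theorem of Jannsen; this is the surjectivity of `c_j`,
for all `j` and over all finite extensions of `k`, for all such `X`.

Let `X_i` be finitely many varieties of odd dimension for which numerical and homological equivalence
coincide (for example curves, hypersurfaces, complete intersections), whose transcendental cohomology
`T_i` (the orthogonal complement of the algebraic classes) is concentrated in the middle degree and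
irreducible under all subgroups of finite index of `Γ`. Assume:

* **(distinct)** for `i ≠ j` the representations `T_i` and `T_j` of `Γ` are not isomorphic up to scalars;
* **(small defects)** let `N` be the set of the `g ∈ Γ` with `χ(g) = 1` which act trivially on the
  cohomology of `Z` and with `(g - 1) ^ 2 = 0` on **all** `T_j`. For every `i` some `g ∈ N` has defects
  on `T_i` without a common prime factor, or the defect two; here the defects of `g` are the rank of
  `g - 1` on `T_i` and the multiplicities of the nonzero eigenvalues of `(g - 1) (g' - 1)` on `T_i`, for
  `g' ∈ N`. (Or: the conjugates of some `g ∈ N` act irreducibly on `T_i` and the defects of all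
  elements of `N` have no common prime factor.)

The elements of `N` are, for instance, the elements of the inertia groups at the discrete valuations `v`
of `k` at which `Z` has good reduction and the `X_j` are curves with stable reduction, or hypersurfaces
whose reduction has ordinary double points; all `X_j` may have bad reduction at the same `v`.

Let `T` be a product of `Z` with arbitrary powers of the `X_i`. Then the following are **equivalent**:
the Tate conjecture for `T` and the statement `FactorsTate` for `T`, so the surjectivity of `c_j` for all
varieties, singular or not proper, which have `T` as a good proper cover; the Tate conjecture for `Z`.
So the conjecture of Jannsen holds for all these varieties if `Z` is a point, a curve, or any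
variety for which the Tate conjecture is known. Nothing is assumed on `Z`.

Proof. By the theory of extremal elements of Lie algebras (see `MP_0d42ed_ag.SemistableProducts`) and the
first fundamental theorem a potentially semi-invariant class on the product of a power of `X_i` with `A`
is a combination of products of algebraic classes of the power with potentially semi-invariant classes
of `A`. If `m` is an invariant element of a direct factor `M`, then `s(m)` is a potentially semi-invariant
class of `T`, so it belongs to `C(T)`, and `m = f(s(m))`.
-/

universe u

namespace Pool.Agent.Results.MP_40dc3c_ag.SemistableProducts

open Pool.Agent.H914 Pool.Agent.H281R3.HT Pool.Agent.TH125.Gal Pool.Agent.V11219.Min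
  Pool.Agent.V11219.Cls

/-- **The Tate conjecture for varieties covered by products.** -/
theorem result {k : Type u} [Field k] {𝒱 : VarClass k} {ops : CycleOps 𝒱}
    (W : WeilCohomology.{u, 0} ops) [IsAlgClosed W.K] {Γ : Type} [Group Γ] (χ : CharOf W Γ)
    (C : Classes W) (hC : ClassSystem W C)
    {ι : Type} [Finite ι] (X : ι → GVar W Γ) (Z : GVar W Γ) (h : Family χ X Z)
    (S : Set ι) (T : GVar W Γ) (hT : Tower X Z S T) :
    (TateIn χ C T ∧ FactorsTate χ C T) ↔ TateIn χ C Z :=
  factors_sst hC h hT

end Pool.Agent.Results.MP_40dc3c_ag.SemistableProducts
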